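import Pool.Agent.H83.VU.Targets

/-!
# Row POS: choice of the positions of `k` different values
-/

set_option autoImplicit false

open Finset Pool.Agent.H83.VU

namespace Pool.Agent.H73.VU

theorem exists_pos {k T : ℕ} (x : Fin T → ℤ) (h : k ≤ (univ.image x).card) :
    ∃ i : Fin k → Fin T, Function.Injective (x ∘ i) := by
  have h1 : ∀ a : Fin k, ∃ t : Fin T, x t =
      (univ.image x).orderEmbOfFin rfl (Fin.castLE h a) := by
    intro a
    have h2 := (univ.image x).orderEmbOfFin_mem rfl (Fin.castLE h a)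
    obtain ⟨t, -, ht⟩ := mem_image.1 h2
    exact ⟨t, ht⟩
  choose i hi using h1
  refine ⟨i, ?_⟩
  intro a b hab
  have h3 : x (i a) = x (i b) := hab
  rw [hi, hi] at h3
  exact Fin.castLE_injective h ((univ.image x).orderEmbOfFin rfl |>.injective h3)

theorem exists_compl {k s : ℕ} (i : Fin k → Fin (s + k)) (hi : Function.Injective i) :
    ∃ r : Fin s → Fin (s + k), Function.Bijective (Sum.elim i r) := by
  have hc : ((univ.image i)ᶜ : Finset (Fin (s + k))).card = s := by
    rw [card_compl, card_image_of_injective _ hi, card_univ, Fintype.card_fin, Fintype.card_fin]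
    omega
  refine ⟨fun b => ((univ.image i)ᶜ).orderEmbOfFin hc b, ?_⟩
  rw [Fintype.bijective_iff_injective_and_card]
  constructor
  · have hne : ∀ a b, i a ≠ ((univ.image i)ᶜ).orderEmbOfFin hc b := by
      intro a b h
      have h1 := ((univ.image i)ᶜ).orderEmbOfFin_mem hc b
      rw [mem_compl] at h1
      exact h1 (mem_image.2 ⟨a, mem_univ _, h⟩)
    rintro (a | a) (b | b) h
    · exact congrArg Sum.inl (hi h)
    · exact (hne a b h).elim
    · exact (hne b a h.symm).elim
    · exact congrArg Sum.inr ((((univ.image i)ᶜ).orderEmbOfFin hc).injective h)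
  · rw [Fintype.card_sum, Fintype.card_fin, Fintype.card_fin, Fintype.card_fin]
    omega

theorem sum_split {k s : ℕ} (i : Fin k → Fin (s + k)) (r : Fin s → Fin (s + k))
    (hr : Function.Bijective (Sum.elim i r)) (f : Fin (s + k) → ℤ) :
    ∑ t, f t = ∑ a, f (i a) + ∑ b, f (r b) := by
  rw [← Equiv.sum_comp (Equiv.ofBijective _ hr) f, Fintype.sum_sum_type]
  rfl

theorem ps_split {k s : ℕ} (i : Fin k → Fin (s + k)) (r : Fin s → Fin (s + k))
    (hr : Function.Bijective (Sum.elim i r)) (x : Fin (s + k) → ℤ) :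
    ps k x = ps k (x ∘ i) + ps k (x ∘ r) := by
  funext j
  exact sum_split i r hr fun t => x t ^ ((j : ℕ) + 1)

theorem eq_of_split {k s : ℕ} (i : Fin k → Fin (s + k)) (r : Fin s → Fin (s + k))
    (hr : Function.Bijective (Sum.elim i r)) (x y : Fin (s + k) → ℤ) (h1 : x ∘ i = y ∘ i)
    (h2 : x ∘ r = y ∘ r) : x = y := by
  funext t
  obtain ⟨a, rfl⟩ := hr.2 t
  cases a with
  | inl a => exact congrFun h1 a
  | inr a => exact congrFun h2 a

theorem mem_bx {T N : ℕ} {x : Fin T → ℤ} : x ∈ Pool.Agent.H83.VU.box T N ↔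
    ∀ t, x t ∈ Icc 1 (N : ℤ) := mem_vec

theorem one_pos_set (k s N : ℕ) (i i' : Fin k → Fin (s + k)) :
    ((box (s + k) N ×ˢ box (s + k) N).filter fun q => ps k q.1 = ps k q.2 ∧
      Function.Injective (q.1 ∘ i) ∧ Function.Injective (q.2 ∘ i')).card ≤
    cA k s (II k N) (Icc 1 (N : ℤ)) := by
  classical
  by_cases hi : Function.Injective i
  swap
  · rw [card_eq_zero.2]
    · exact Nat.zero_le _
    · rw [filter_eq_empty_iff]
      rintro q - ⟨-, h, -⟩
      exact hi h.of_comp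
  by_cases hi' : Function.Injective i'
  swap
  · rw [card_eq_zero.2]
    · exact Nat.zero_le _
    · rw [filter_eq_empty_iff]
      rintro q - ⟨-, -, h⟩
      exact hi' h.of_comp
  obtain ⟨r, hr⟩ := exists_compl i hi
  obtain ⟨r', hr'⟩ := exists_compl i' hi'
  unfold cA
  apply card_le_card_of_injOn
    (fun q : (Fin (s + k) → ℤ) × (Fin (s + k) → ℤ) =>
      ((q.1 ∘ i, q.2 ∘ i'), (q.1 ∘ r, q.2 ∘ r')))
  · intro q hq
    have hq' := mem_filter.1 (mem_coe.1 hq)
    obtain ⟨h1, h2, h3, h4⟩ := hq'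
    obtain ⟨h5, h6⟩ := mem_product.1 h1
    rw [mem_bx] at h5 h6
    apply mem_coe.2
    apply mem_filter.2
    refine ⟨mem_product.2 ⟨mem_product.2 ⟨?_, ?_⟩, mem_product.2 ⟨?_, ?_⟩⟩, ?_⟩
    · apply mem_filter.2
      refine ⟨?_, fun a b hab => h3 hab⟩
      rw [mem_bx]
      exact fun a => h5 _
    · apply mem_filter.2
      refine ⟨?_, fun a b hab => h4 hab⟩
      rw [mem_bx]
      exact fun a => h6 _
    · rw [mem_vec]
      exact fun a => h5 _
    · rw [mem_vec]
      exact fun a => h6 _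
    · show ps k (q.1 ∘ i) + ps k (q.1 ∘ r) = ps k (q.2 ∘ i') + ps k (q.2 ∘ r')
      rw [← ps_split i r hr, ← ps_split i' r' hr']
      exact h2
  · intro q _ q' _ h
    have h1 := congrArg Prod.fst h
    have h2 := congrArg Prod.snd h
    have h3 : q.1 ∘ i = q'.1 ∘ i := congrArg Prod.fst h1
    have h4 : q.2 ∘ i' = q'.2 ∘ i' := congrArg Prod.snd h1
    have h5 : q.1 ∘ r = q'.1 ∘ r := congrArg Prod.fst h2
    have h6 : q.2 ∘ r' = q'.2 ∘ r' := congrArg Prod.snd h2
    exact Prod.ext (eq_of_split i r hr _ _ h3 h5) (eq_of_split i' r' hr' _ _ h4 h6)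

theorem pf_POS : T_POS := by
  classical
  intro k s N _
  let L : (Fin k → Fin (s + k)) × (Fin k → Fin (s + k)) →
      Finset ((Fin (s + k) → ℤ) × (Fin (s + k) → ℤ)) := fun p =>
    (box (s + k) N ×ˢ box (s + k) N).filter fun q => ps k q.1 = ps k q.2 ∧
      Function.Injective (q.1 ∘ p.1) ∧ Function.Injective (q.2 ∘ p.2)
  have h1 : ((box (s + k) N ×ˢ box (s + k) N).filter fun q => ps k q.1 = ps k q.2 ∧
      k ≤ (univ.image q.1).card ∧ k ≤ (univ.image q.2).card) ⊆ univ.biUnion L := by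
    intro q hq
    obtain ⟨h2, h3, h4, h5⟩ := mem_filter.1 hq
    obtain ⟨i, hi⟩ := exists_pos q.1 h4
    obtain ⟨i', hi'⟩ := exists_pos q.2 h5
    exact mem_biUnion.2 ⟨(i, i'), mem_univ _, mem_filter.2 ⟨h2, h3, hi, hi'⟩⟩
  refine (card_le_card h1).trans (card_biUnion_le.trans ?_)
  calc ∑ p, (L p).card ≤ ∑ _p : (Fin k → Fin (s + k)) × (Fin k → Fin (s + k)),
        cA k s (II k N) (Icc 1 (N : ℤ)) :=
        sum_le_sum fun p _ => one_pos_set k s N p.1 p.2
    _ = (s + k) ^ (2 * k) * cA k s (II k N) (Icc 1 (N : ℤ)) := by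
        rw [sum_const, card_univ, Fintype.card_prod, Fintype.card_fun, Fintype.card_fin,
          Fintype.card_fin, smul_eq_mul, two_mul, pow_add]

end Pool.Agent.H73.VU
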